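import Pool.Agent.W872.MX.StmB

/-! # Project MX, part GAD: even order with a gadget on four vertices -/

set_option autoImplicit false

namespace Pool.Agent.W496.MX.GAD

open Finset W872.MX

variable {W : Type}

lemma hasRB_of (R : SimpleGraph W) (T : Finset W) {ι κ : Type} [Fintype ι] [Fintype κ]
    (f : (ι ⊕ κ) × Bool → W) (hf : Function.Injective f) (hT : ∀ x, f x ∈ T)
    (hr : ∀ a : ι, R.Adj (f (Sum.inl a, false)) (f (Sum.inl a, true)))
    (hb : ∀ b : κ, Rᶜ.Adj (f (Sum.inr b, false)) (f (Sum.inr b, true)))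
    (i j : ℕ) (hi : Fintype.card ι = i) (hj : Fintype.card κ = j) : HasRB R T i j := by
  subst hi hj
  let e : (Fin (Fintype.card ι) ⊕ Fin (Fintype.card κ)) ≃ ι ⊕ κ :=
    Equiv.sumCongr (Fintype.equivFin ι).symm (Fintype.equivFin κ).symm
  refine ⟨⟨fun x => f (e x.1, x.2), ?_⟩, fun x => hT _, fun a => hr _, fun b => hb _⟩
  intro x y hxy
  have h := hf hxy
  rw [Prod.mk.injEq] at h
  exact Prod.ext (e.injective h.1) h.2

lemma glue {R : SimpleGraph W} {S T : Finset W} (hST : Disjoint S T) {U : Finset W} {a b c d : ℕ}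
    (h₁ : HasRB R S a b) (h₂ : HasRB R T c d) (hS : S ⊆ U) (hT : T ⊆ U) :
    HasRB R U (a + c) (b + d) := by
  obtain ⟨f, hf, hfr, hfb⟩ := h₁
  obtain ⟨g, hg, hgr, hgb⟩ := h₂
  let F : ((Fin a ⊕ Fin c) ⊕ (Fin b ⊕ Fin d)) × Bool → W := fun x =>
    match x with
    | (Sum.inl (Sum.inl i), β) => f (Sum.inl i, β)
    | (Sum.inl (Sum.inr i), β) => g (Sum.inl i, β)
    | (Sum.inr (Sum.inl i), β) => f (Sum.inr i, β)
    | (Sum.inr (Sum.inr i), β) => g (Sum.inr i, β)
  have hne : ∀ x y, f x ≠ g y := fun x y h =>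
    (Finset.disjoint_left.mp hST (hf x)) (h ▸ hg y)
  refine hasRB_of R U F ?_ ?_ ?_ ?_ _ _ (by simp) (by simp)
  · rintro ⟨(i | i) | (i | i), β⟩ ⟨(j | j) | (j | j), γ⟩ h <;> simp only [F] at h
    all_goals first
      | (exact absurd h (hne _ _))
      | (exact absurd h.symm (hne _ _))
      | (have h' := f.injective h; simp_all)
      | (have h' := g.injective h; simp_all)
  · rintro ⟨(i | i) | (i | i), β⟩
    · exact hS (hf _)
    · exact hT (hg _)
    · exact hS (hf _)
    · exact hT (hg _)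
  · rintro (i | i)
    · exact hfr i
    · exact hgr i
  · rintro (i | i)
    · exact hfb i
    · exact hgb i

/-- number of red pairs -/
noncomputable def val (R : SimpleGraph W) {s : ℕ} (σ : Fin s × Bool → W) : ℕ := by
  classical exact (univ.filter fun a : Fin s => R.Adj (σ (a, false)) (σ (a, true))).card

lemma hasRB_val (R : SimpleGraph W) (T : Finset W) {s : ℕ} (σ : Fin s × Bool → W)
    (hσ : Function.Injective σ) (hT : ∀ x, σ x ∈ T) (v : ℕ) (hv : val R σ = v) :
    HasRB R T v (s - v) := by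
  classical
  let F : ({a : Fin s // R.Adj (σ (a, false)) (σ (a, true))} ⊕
      {a : Fin s // ¬ R.Adj (σ (a, false)) (σ (a, true))}) × Bool → W := fun x =>
    match x with
    | (Sum.inl a, β) => σ (a.1, β)
    | (Sum.inr a, β) => σ (a.1, β)
  have h1 : Fintype.card {a : Fin s // R.Adj (σ (a, false)) (σ (a, true))} = v := by
    rw [← hv, val, Fintype.card_subtype]
  refine hasRB_of R T F ?_ ?_ ?_ ?_ _ _ h1 ?_
  · rintro ⟨a | a, β⟩ ⟨b | b, γ⟩ h <;> simp only [F] at h
    · have h' := hσ h
      simp only [Prod.mk.injEq] at h'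
      simp [Subtype.ext_iff, h'.1, h'.2]
    · have h' := hσ h
      simp only [Prod.mk.injEq] at h'
      exact absurd (h'.1 ▸ a.2) b.2
    · have h' := hσ h
      simp only [Prod.mk.injEq] at h'
      exact absurd (h'.1 ▸ b.2) a.2
    · have h' := hσ h
      simp only [Prod.mk.injEq] at h'
      simp [Subtype.ext_iff, h'.1, h'.2]
  · rintro ⟨a | a, β⟩
    · exact hT _
    · exact hT _
  · exact fun a => a.2
  · intro a
    rw [SimpleGraph.compl_adj]
    exact ⟨fun h => by simpa using hσ h, a.2⟩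
  · rw [Fintype.card_subtype_compl, h1, Fintype.card_fin]

lemma val_swap (R : SimpleGraph W) {s : ℕ} (σ : Fin s × Bool → W) (x y : Fin s × Bool) :
    val R σ ≤ val R (σ ∘ Equiv.swap x y) + 2 := by
  classical
  have hsub : (univ.filter fun a : Fin s => R.Adj (σ (a, false)) (σ (a, true))) ⊆
      (univ.filter fun a : Fin s => R.Adj ((σ ∘ Equiv.swap x y) (a, false))
        ((σ ∘ Equiv.swap x y) (a, true))) ∪ {x.1, y.1} := by
    intro a ha
    by_cases hx : a = x.1
    · simp [hx]
    by_cases hy : a = y.1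
    · simp [hy]
    rw [mem_union, mem_filter]
    left
    have e : ∀ β, Equiv.swap x y (a, β) = (a, β) := fun β =>
      Equiv.swap_apply_of_ne_of_ne (fun h => hx (by rw [← h])) (fun h => hy (by rw [← h]))
    simpa [e] using ha
  have h1 := card_le_card hsub
  have h2 := card_union_le (univ.filter fun a : Fin s => R.Adj ((σ ∘ Equiv.swap x y) (a, false))
        ((σ ∘ Equiv.swap x y) (a, true))) {x.1, y.1}
  have h3 : ({x.1, y.1} : Finset (Fin s)).card ≤ 2 := card_le_two
  unfold val
  omega

lemma interp (R : SimpleGraph W) {s : ℕ} (σ : Fin s × Bool → W) (π : Equiv.Perm (Fin s × Bool)) :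
    ∀ v, val R (σ ∘ π) ≤ v → v < val R σ →
      ∃ ρ : Equiv.Perm (Fin s × Bool), val R (σ ∘ ρ) = v ∨ val R (σ ∘ ρ) = v + 1 := by
  induction π using Equiv.Perm.swap_induction_on' with
  | one =>
    intro v h1 h2
    exfalso
    have : σ ∘ (1 : Equiv.Perm (Fin s × Bool)) = σ := rfl
    rw [this] at h1
    omega
  | mul_swap f x y hxy ih =>
    intro v h1 h2
    by_cases h3 : val R (σ ∘ f) ≤ v
    · exact ih v h3 h2
    · have h4 := val_swap R (σ ∘ f) x y
      have h5 : (σ ∘ f) ∘ Equiv.swap x y = σ ∘ (f * Equiv.swap x y : Equiv.Perm _) := rfl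
      rw [h5] at h4
      by_cases h6 : val R (σ ∘ f) = v + 1
      · exact ⟨f, Or.inr h6⟩
      · exact ⟨f * Equiv.swap x y, Or.inl (by omega)⟩

lemma gap (R : SimpleGraph W) (T : Finset W) (s : ℕ) (hT : T.card = 2 * s)
    (h₁ : HasRB R T s 0) (h₂ : HasRB R T 0 s) (v : ℕ) (hv : v < s) :
    HasRB R T v (s - v) ∨ HasRB R T (v + 1) (s - (v + 1)) := by
  classical
  obtain ⟨f, hf, hfr, -⟩ := h₁
  obtain ⟨g, hg, -, hgb⟩ := h₂
  let σ : Fin s × Bool → W := fun x => f (Sum.inl x.1, x.2)
  let τ : Fin s × Bool → W := fun x => g (Sum.inr x.1, x.2)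
  have hσ : Function.Injective σ := by
    intro x y h
    have := f.injective h
    simp only [Prod.mk.injEq, Sum.inl.injEq] at this
    exact Prod.ext this.1 this.2
  have hτ : Function.Injective τ := by
    intro x y h
    have := g.injective h
    simp only [Prod.mk.injEq, Sum.inr.injEq] at this
    exact Prod.ext this.1 this.2
  have him : univ.image σ = T := by
    refine eq_of_subset_of_card_le ?_ ?_
    · intro w hw
      obtain ⟨x, -, rfl⟩ := mem_image.mp hw
      exact hf _
    · rw [card_image_of_injective _ hσ, hT, card_univ, Fintype.card_prod, Fintype.card_fin,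
        Fintype.card_bool]
      omega
  have hpre : ∀ x, ∃ y, σ y = τ x := by
    intro x
    have : τ x ∈ univ.image σ := by
      rw [him]
      exact hg _
    obtain ⟨y, -, hy⟩ := mem_image.mp this
    exact ⟨y, hy⟩
  choose p hp using hpre
  have hpinj : Function.Injective p := by
    intro x y h
    apply hτ
    rw [← hp x, ← hp y, h]
  let π : Equiv.Perm (Fin s × Bool) := Equiv.ofBijective p (Finite.injective_iff_bijective.mp hpinj)
  have hπ : σ ∘ π = τ := by
    funext x
    exact hp x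
  have hvσ : val R σ = s := by
    unfold val
    rw [filter_true_of_mem (fun a _ => hfr a)]
    simp
  have hvτ : val R (σ ∘ π) = 0 := by
    rw [hπ]
    unfold val
    rw [filter_false_of_mem (fun a _ => ((SimpleGraph.compl_adj _ _ _).mp (hgb a)).2)]
    simp
  obtain ⟨ρ, hρ | hρ⟩ := interp R σ π v (by omega) (by omega)
  · left
    exact hasRB_val R T (σ ∘ ρ) (hσ.comp ρ.injective) (fun x => hf _) v hρ
  · right
    exact hasRB_val R T (σ ∘ ρ) (hσ.comp ρ.injective) (fun x => hf _) (v + 1) hρ

theorem main : PartGAD := by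
  intro t R Q hQ h20 h11 h02 hr hb
  have hcard : Q.card + Qᶜ.card = 2 * t := by
    rw [card_add_card_compl, Fintype.card_fin]
  obtain ⟨s, rfl⟩ : ∃ s, t = s + 2 := ⟨t - 2, by omega⟩
  have hs : s + 2 - 2 = s := by omega
  rw [hs] at hr hb
  have hQc : Qᶜ.card = 2 * s := by omega
  have hd : Disjoint Q Qᶜ := disjoint_compl_right
  intro i j hij
  have hij' : i + j = s + 2 := by
    rw [hij, card_univ, Fintype.card_fin]
    omega
  have key : ∀ {a b c d : ℕ}, HasRB R Q a b → HasRB R Qᶜ c d → a + c = i → b + d = j →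
      HasRB R univ i j := by
    intro a b c d h1 h2 h3 h4
    subst h3 h4
    exact glue hd h1 h2 (subset_univ _) (subset_univ _)
  rcases Nat.eq_zero_or_pos i with h0 | h0
  · exact key h02 hb (by omega) (by omega)
  rcases Nat.lt_or_ge s i with h1 | h1
  · rcases Nat.lt_or_ge (s + 1) i with h2 | h2
    · exact key h20 hr (by omega) (by omega)
    · exact key h11 hr (by omega) (by omega)
  · rcases gap R Qᶜ s hQc hr hb (i - 1) (by omega) with h2 | h2
    · exact key h11 h2 (by omega) (by omega)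
    · exact key h02 h2 (by omega) (by omega)

end Pool.Agent.W496.MX.GAD
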